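import Pool.Agent.Y213.CT.Cyc

/-!
# Effective zero-cycles of small degree and the Brauer-Manin pairing

`E : y² = x³ + a x + b` is an elliptic curve over a number field `K` (any rank, with or without
complex multiplication) whose Tate-Shafarevich group is killed by some `M₀ ≥ 1`, and `X` is a closed
subset of `E ^ r × ℙ ^ n` over `K`, a family of closed subsets `X_y ⊆ E ^ r` with parameter space
`ℙ ^ n`. Suppose that for all `1 ≤ m ≤ M` and all complex points `S` of `E ^ r` there are at most `D`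
points `y` such that `S` is a sum of `m` points of `X_y`. Then for `B ≥ 1` there is ONE level
`N = O(B ^ ε)` such that for all points `y` in `ℙ ^ n (K)` of height at most `B` with `O(B ^ ε)`
exceptions and all `1 ≤ m ≤ M` the following holds. Let `z_v` be an effective zero-cycle of degree `m`
on `X_y` over `K_v`, for all finite places `v` (or just `m` points of `X_y` over an algebraic closure of
`K_v` whose sum in `E ^ r` is defined over `K_v`). Then the sums `T_v ∈ E ^ r (K_v)` of the `z_v` are not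
the local images of one and the same class in `H¹(K, E[N]) ^ r`. By the duality of Tate this means that
some class of `Br(E ^ r)`, of the kind given by `H¹(K, E[N])`, is not orthogonal to `(z_v)`.

In particular `(z_v)` is not in the kernel of the map `b` of the complex; and it is not in the image of
`a`, since the sum of a zero-cycle over `K` is a point of `E ^ r (K)`. So for 100 percent of the
members of the family the complex is exact on the classes of effective cycles of degree at most `M`.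
-/

set_option autoImplicit false

namespace Pool.Agent.Results.MP_bd895b_nt.EffectiveCycles

open MvPolynomial NumberField IsDedekindDomain Pool.Agent.TH954

open scoped LinearAlgebra.Projectivization

/-- the curve `y² = x³ + a x + b` -/
def curve {F : Type} [Field F] (a b : F) : WeierstrassCurve F := ⟨0, 0, 0, a, b⟩

/-- homogeneous coordinates of a point in the projective plane -/
def coords {F : Type} [Field F] {W : WeierstrassCurve F} : W.toAffine.Point → Fin 3 → F
  | .zero => ![0, 1, 0]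
  | .some x y _ => ![x, y, 1]

/-- `F` is homogeneous of degree `d i` in the coordinates `(i, 0), (i, 1), (i, 2)` of the `i`-th
point of the plane, and homogeneous of degree `m` in the last `n + 1` variables -/
def MultiHomog {O : Type} [CommRing O] {r n : ℕ}
    (F : MvPolynomial ((Fin r × Fin 3) ⊕ Fin (n + 1)) O) (d : Fin r → ℕ) (m : ℕ) : Prop :=
  ∀ e ∈ F.support, (∀ i, ∑ j, e (Sum.inl (i, j)) = d i) ∧ ∑ i, e (Sum.inr i) = m

open scoped Classical in
/-- `S` is a sum of `m` complex points `P` of the member `X_y`, that is, with `G_e(P; y) = 0` for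
all `e` -/
def IsSum {K : Type} [Field K] (σ : K →+* ℂ) (a b : 𝓞 K) {r n q : ℕ}
    (G : Fin q → MvPolynomial ((Fin r × Fin 3) ⊕ Fin (n + 1)) (𝓞 K)) (m : ℕ)
    (S : Fin r → (curve (σ a) (σ b)).toAffine.Point) (y : Fin (n + 1) → ℂ) : Prop :=
  ∃ P : Fin m → Fin r → (curve (σ a) (σ b)).toAffine.Point,
    (∀ j e, eval₂ (σ.comp (algebraMap (𝓞 K) K))
      (Sum.elim (fun il => coords (P j il.1) il.2) y) (G e) = 0) ∧ ∀ i, ∑ j, P j i = S i

/-- the equations `G_e(V; y) = 0` of the member `X_y`, for a `K`-rational point `y` of `ℙ ^ n` -/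
noncomputable def Member {K : Type} [Field K] {r n q : ℕ}
    (G : Fin q → MvPolynomial ((Fin r × Fin 3) ⊕ Fin (n + 1)) (𝓞 K))
    (y : ℙ K (Fin (n + 1) → K)) : Set (MvPolynomial (Fin r × Fin 3) K) :=
  Set.range fun e =>
    eval₂ (C.comp (algebraMap (𝓞 K) K)) (Sum.elim X (fun i => C (y.rep i))) (G e)

open scoped Classical in
/-- The points `T_v ∈ E ^ r (K_v)`, for the finite places `v`, are the local images of the classes in
`H¹(K, E[N])` of the cocycles `ξ i`: there are `N`-th division points `Q i` of the `T_v i` on which the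
Galois group of `K_v` acts by translation by `ξ i`. -/
def GivenByClass {K : Type} [Field K] [NumberField K] (E : WeierstrassCurve K) {r : ℕ} (N : ℕ)
    (ξ : Fin r → (AlgebraicClosure K ≃ₐ[K] AlgebraicClosure K) → AlgPt E K)
    (T : ∀ v : HeightOneSpectrum (𝓞 K), Fin r →
      (E.baseChange (v.adicCompletion K)).toAffine.Point) : Prop :=
  (∀ i, IsCocycle E (ξ i)) ∧ (∀ i σ, N • ξ i σ = 0) ∧
  ∀ v : HeightOneSpectrum (𝓞 K),
    ∃ (ι : AlgebraicClosure K →ₐ[K] AlgebraicClosure (v.adicCompletion K))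
      (Q : Fin r → AlgPt E (v.adicCompletion K)),
      (∀ i, N • Q i = incl E (v.adicCompletion K) (T v i)) ∧
      ∀ i σ τ, Compat ι σ τ → pm E ι (ξ i τ) = act E σ (Q i) - Q i

open scoped Classical in
/-- For every finite place `v` the `P v j`, `j = 1, …, m`, are points of the member `X_y` over an
algebraic closure of `K_v` with sum `T v` in `E ^ r (K_v)`. For instance, the `P v j` are the points of
an effective zero-cycle of degree `m` on `X_y` over `K_v`. -/
def IsAdelicCycle {K : Type} [Field K] [NumberField K] (a b : 𝓞 K) {r n q : ℕ}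
    (G : Fin q → MvPolynomial ((Fin r × Fin 3) ⊕ Fin (n + 1)) (𝓞 K))
    (y : ℙ K (Fin (n + 1) → K)) (m : ℕ)
    (P : ∀ v : HeightOneSpectrum (𝓞 K), Fin m → Fin r →
      AlgPt (curve (a : K) (b : K)) (v.adicCompletion K))
    (T : ∀ v : HeightOneSpectrum (𝓞 K), Fin r →
      ((curve (a : K) (b : K)).baseChange (v.adicCompletion K)).toAffine.Point) : Prop :=
  ∀ v, (∀ j, OnX (Member G y) (fun i => crd (P v j i))) ∧
    ∀ i, ∑ j, P v j i = incl (curve (a : K) (b : K)) (v.adicCompletion K) (T v i)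

theorem coords_eq {F : Type} [Field F] {a b : F} (P : Pool.Agent.H901R3.MS.Pt a b) :
    coords P = Pool.Agent.H901R3.MS.rep P := by
  rcases P with _ | ⟨x, y, h⟩ <;> rfl

open scoped Classical in
theorem result (K : Type) [Field K] [NumberField K] (a b : 𝓞 K)
    (hE : 4 * a ^ 3 + 27 * b ^ 2 ≠ 0) (M₀ : ℕ) (hM1 : 1 ≤ M₀)
    (hM : ShaKilledBy (curve (a : K) (b : K)) M₀) (r n q : ℕ)
    (G : Fin q → MvPolynomial ((Fin r × Fin 3) ⊕ Fin (n + 1)) (𝓞 K))
    (d : Fin q → Fin r → ℕ) (deg : Fin q → ℕ) (hG : ∀ e, MultiHomog (G e) (d e) (deg e))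
    (σ : K →+* ℂ) (M D : ℕ)
    (hX : ∀ m, 1 ≤ m → m ≤ M → ∀ S : Fin r → (curve (σ a) (σ b)).toAffine.Point,
      {y : ℙ ℂ (Fin (n + 1) → ℂ) | IsSum σ a b G m S y.rep}.encard ≤ D)
    (ε : ℝ) (hε : 0 < ε) :
    ∃ C : ℝ, ∀ B : ℝ, 1 ≤ B → ∃ N : ℕ, 1 ≤ N ∧ (N : ℝ) ≤ C * B ^ ε ∧
      ∃ Z : Finset (ℙ K (Fin (n + 1) → K)), (Z.card : ℝ) ≤ C * B ^ ε ∧
      ∀ y : ℙ K (Fin (n + 1) → K), y.mulHeight ≤ B → y ∉ Z → ∀ m, 1 ≤ m → m ≤ M →
      ∀ P T, IsAdelicCycle a b G y m P T →
        ∀ ξ, ¬ GivenByClass (curve (a : K) (b : K)) N ξ T := by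
  obtain ⟨C, hC⟩ := Pool.Agent.Y213.CT.partBS K r (n + 1) q (Finset.range M) a b hE G d deg
    (fun e x hx => (hG e x hx).1) (fun e x hx => (hG e x hx).2) D σ (by
      intro m hm S
      rw [Finset.mem_range] at hm
      refine (Set.encard_le_encard ?_).trans (hX (m + 1) (by omega) (by omega) S)
      intro y hy
      obtain ⟨P, hP1, hP2⟩ := hy
      refine ⟨P, fun j e => ?_, hP2⟩
      have h1 := hP1 j e
      unfold Pool.Agent.Y213.EC.vl at h1
      rw [← h1]
      congr 1
      funext ij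
      rcases ij with ij | i
      · exact congrFun (coords_eq (P j ij.1)) ij.2
      · rfl) ε hε
  have hM0 : (1 : ℝ) ≤ M₀ := by exact_mod_cast hM1
  refine ⟨M₀ * 2 * C, fun B hB => ?_⟩
  obtain ⟨L, hL1, hL, hfin, hcard⟩ := hC B hB
  have hCB : 0 ≤ C * B ^ ε := le_trans (Nat.cast_nonneg _) hL
  refine ⟨M₀ * 2 * L, ?_, ?_, hfin.toFinset, ?_, ?_⟩
  · have := Nat.mul_pos (Nat.mul_pos hM1 two_pos) hL1
    omega
  · push_cast
    rw [mul_assoc ((M₀ : ℝ) * 2)]
    exact mul_le_mul_of_nonneg_left hL (by positivity)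
  · rw [← Set.ncard_eq_toFinset_card _ hfin, mul_assoc ((M₀ : ℝ) * 2)]
    refine hcard.trans ?_
    nlinarith
  · intro y hyB hyZ m hm1 hmM P T hPT ξ hξ
    apply hyZ
    rw [Set.Finite.mem_toFinset]
    obtain ⟨m', rfl⟩ : ∃ m', m = m' + 1 := ⟨m - 1, by omega⟩
    refine ⟨⟨m', Finset.mem_range.2 (by omega),
      Pool.Agent.Y213.CT.hs_of_cyc Pool.Agent.Y213.CT.tPlc a b G d deg
      (fun e x hx => (hG e x hx).1) (fun e x hx => (hG e x hx).2) hM y.rep L
      ⟨ξ, T, hξ, fun v => ⟨P v, (hPT v).1, (hPT v).2⟩⟩⟩, hyB⟩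

end Pool.Agent.Results.MP_bd895b_nt.EffectiveCycles
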