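import Pool.Agent.Y160.T5.Fin

/-!
# Zero-cycles on a positive proportion of the curves
# `w ^ q = g(x ^ M) + (b(x ^ M) + c t ^ (p ^ d)) ^ q` over `F(t)` for every large finite field `F`

Let `p` be a prime, `q = p ^ (s + 1)`, `m` prime to `p`, `q r < m`, and `R` odd and prime to `p`. Let `F` be
a finite field with at least `4 R m + 2` elements which contains the roots of unity of order `q` and
`R`. For `v` in `F ^ (m + r + 2)` let `g` be monic of degree `m` with the coefficients `v_0, …, v_(m - 1)`,
`b` of degree at most `r` with the coefficients `v_m, …, v_(m + r)`, and `c = v_(m + r + 1)`; so all the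
coefficients of `g`, `b` and `c` are free.

Theorem. For at least the proportion `1 / (16 (R m) ^ 2)` of these `v` the following holds for ALL finite
extensions `F'` of `F` of degree prime to `R m`, ALL `d ≥ 1` and ALL divisors `M` of powers of `R`: `c` is
not zero, `g(x ^ M)` and `(g + b ^ q)(x ^ M)` are irreducible over `F'`, the `p`-primary part of the
Tate-Shafarevich group of the Jacobian `J` of the curve `w ^ q = g(x ^ M) + (b(x ^ M) + c t ^ (p ^ d)) ^ q`
over `F'(t)` is zero, and `J(F'(t)) = p J(F'(t))` (so that the rank is zero).

Consequence. By the theorems of Artin, Tate and Milne the Brauer group of a smooth projective model of the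
surface over `F'` is finite, so the Tate-Shafarevich group of `J` over the global field `F'(t)` is finite,
and the local-global complex for zero-cycles is exact for the smooth projective curve over `F'(t)` with
the equation `w ^ q = g(x ^ M) + (b(x ^ M) + c t ^ (p ^ d)) ^ q`. The genus and the conductor are
unbounded for each `v`, and for `r ≥ 1` or `m ≥ 3` the surfaces are in general not products of curves up
to finite maps, as far as is known.
-/

set_option autoImplicit false

namespace Pool.Agent.Results.MP_bd895b_nt.ProportionTowerSurfaces

open Pool.Agent.Y160.SL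

theorem result {p s m r R : ℕ} (hp : p.Prime) (hcop : p.Coprime m) (hqr : p ^ (s + 1) * r < m)
    (hR : Odd R) (hpR : p.Coprime R) (F : Type) [Field F] [Finite F] {ζ : F}
    (hζ : IsPrimitiveRoot ζ (p ^ (s + 1))) (hRF : R ∣ Nat.card F - 1)
    (hn : 4 * (R * m) + 2 ≤ Nat.card F) :
    Nat.card F ^ (m + (r + 2)) ≤ 16 * (R * m) ^ 2 *
      {v : Fin (m + (r + 2)) → F | ∀ (F' : Type) [Field F'] [Algebra F F'] [FiniteDimensional F F'],
        (R * m).Coprime (Module.finrank F F') →
          GoodTow p (p ^ (s + 1)) R F' ((coefG m r v).map (algebraMap F F'))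
            ((coefB m r v).map (algebraMap F F')) (algebraMap F F' (coefC m r v))}.ncard :=
  Pool.Agent.Y160.T5.fin_tow hp hcop hqr hR hpR F hζ hRF hn

end Pool.Agent.Results.MP_bd895b_nt.ProportionTowerSurfaces
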