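import Pool.Agent.Y716.D.Main

/-!
# Approximation of zero-cycles on 100% of the Fano complete intersections over `ℚ`

Let `d 1, …, d s ≥ 2` with `d 1 + ⋯ + d s ≤ n`, so that the smooth complete intersections of
hypersurfaces of degrees `d 1, …, d s` in `ℙⁿ` are Fano varieties, and let `n ≥ 3`. Among the
smooth complete intersections `X : f 1 = ⋯ = f s = 0`, with integral forms of these degrees with
coefficients bounded by `H`, which have points over the real numbers and over all the `p`-adic
fields, a proportion tending to `1` as `H → ∞` has the following property, with `m = m(H) → ∞`: for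
all integers `ε 1, …, ε r`, every family of local zero-cycles `∑ ε i P i`, `P i ∈ X(ℚ_v)`, one for
each place `v` of `ℚ`, is approximated to precision `1 / m` at the real place and at the primes up
to `m` by a zero-cycle `∑ ε i R i` with `R i ∈ X(ℚ)`. In particular `X` has a zero-cycle of degree
one.

(Families of local zero-cycles of a common degree which are supported in rational points over the
completions have this form at any finite set of places: add and subtract points.)
-/

set_option autoImplicit false

namespace Pool.Agent.Results.MP_bd895b_nt.RandomZeroCycles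

/-- The systems of forms of degrees `d j` in `n + 1` variables whose coefficients are integers of
absolute value at most `H`. -/
def Systems {s : ℕ} (d : Fin s → ℕ) (n H : ℕ) : Set (Fin s → MvPolynomial (Fin (n + 1)) ℤ) :=
  {f | ∀ j, (f j).IsHomogeneous (d j) ∧ ∀ m, |(f j).coeff m| ≤ (H : ℤ)}

/-- The forms `f 1, …, f s` define a smooth complete intersection in `ℙⁿ`: at every common zero over
a field of characteristic zero the Jacobian matrix has rank `s`, that is, no nontrivial linear
combination of the gradients of the forms vanishes there. -/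
def Smooth {s n : ℕ} (f : Fin s → MvPolynomial (Fin (n + 1)) ℤ) : Prop :=
  ∀ (K : Type) [Field K] [CharZero K] (x : Fin (n + 1) → K) (l : Fin s → K), x ≠ 0 → l ≠ 0 →
    (∀ j, MvPolynomial.aeval x (f j) = 0) →
    ∃ i, ∑ j, l j * MvPolynomial.aeval x (MvPolynomial.pderiv i (f j)) ≠ 0

/-- The points of the intersection `f 1 = ⋯ = f s = 0` in `ℙⁿ` over the field `K` (given by their
homogeneous coordinates). -/
def Points {s n : ℕ} (f : Fin s → MvPolynomial (Fin (n + 1)) ℤ) (K : Type) [Field K] :
    Set (Fin (n + 1) → K) :=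
  {x | x ≠ 0 ∧ ∀ j, MvPolynomial.aeval x (f j) = 0}

/-- The intersection `f 1 = ⋯ = f s = 0` in `ℙⁿ` has points over the real numbers and over all the
`p`-adic fields. -/
def LocallySoluble {s n : ℕ} (f : Fin s → MvPolynomial (Fin (n + 1)) ℤ) : Prop :=
  (Points f ℝ).Nonempty ∧ ∀ (p : ℕ) [Fact p.Prime], (Points f ℚ_[p]).Nonempty

/-- The point `x` of `ℙⁿ(ℚ)` is close to the point `z` of `ℙⁿ(K)`, for `K = ℝ` or `K = ℚ_p`, to
precision `1 / m`: for a suitable representative of `x` the coordinates of `z - x` are at most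
`‖z‖ / m`, where `‖z‖` is the largest absolute value of a coordinate of `z`. -/
def Close (m : ℕ) {n : ℕ} {K : Type} [NormedField K] (z : Fin (n + 1) → K)
    (x : Fin (n + 1) → ℚ) : Prop :=
  ∃ c : K, c ≠ 0 ∧ ∀ i, ‖z i - c * (x i : K)‖ ≤ ‖z‖ / m

/-- Approximation of zero-cycles to precision `1 / m` at the real place and at the primes up to `m`:
for every `r` and all `P 1, …, P r` over the real numbers and over each `p`-adic field there are
rational points `R 1, …, R r` of the intersection with `R i` close to `P i` at these places for all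
`i`; so for all integers `ε i` the zero-cycle `∑ ε i R i` over `ℚ` approximates the local zero-cycles
`∑ ε i P i`. -/
def ZeroCycleApproximation (m : ℕ) {s n : ℕ} (f : Fin s → MvPolynomial (Fin (n + 1)) ℤ) : Prop :=
  ∀ (r : ℕ) (P : ∀ (p : ℕ) [Fact p.Prime], Fin r → Fin (n + 1) → ℚ_[p])
    (Q : Fin r → Fin (n + 1) → ℝ),
    (∀ (p : ℕ) [Fact p.Prime] (i : Fin r), P p i ∈ Points f ℚ_[p]) → (∀ i, Q i ∈ Points f ℝ) →
    ∃ R : Fin r → Fin (n + 1) → ℚ, (∀ i, R i ∈ Points f ℚ) ∧
      (∀ (p : ℕ) [Fact p.Prime], p ≤ m → ∀ i, Close m (P p i) (R i)) ∧ ∀ i, Close m (Q i) (R i)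

/-- For degrees `d j ≥ 2` with `∑ d j ≤ n` and for `n ≥ 3` there is a function `m` tending to
infinity such that 100% of the everywhere locally soluble smooth complete intersections of
hypersurfaces of degrees `d j` in `ℙⁿ` of height at most `H` have the approximation property for
zero-cycles to precision `1 / m(H)` at the real place and at the primes up to `m(H)`. -/
theorem result (s n : ℕ) (d : Fin s → ℕ) (hs : 1 ≤ s) (hd : ∀ j, 2 ≤ d j) (hdn : ∑ j, d j ≤ n)
    (hn : 3 ≤ n) :
    ∃ m : ℕ → ℕ, Filter.Tendsto m Filter.atTop Filter.atTop ∧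
      Filter.Tendsto (fun H : ℕ =>
        (({f | f ∈ Systems d n H ∧ Smooth f ∧ LocallySoluble f ∧
          ZeroCycleApproximation (m H) f} : Set _).ncard : ℝ) /
        (({f | f ∈ Systems d n H ∧ Smooth f ∧ LocallySoluble f} : Set _).ncard : ℝ))
      Filter.atTop (nhds 1) := by
  obtain ⟨e, he⟩ : ∃ e : Fin s → ℕ, ∀ j, d j = e j + 2 :=
    ⟨fun j => d j - 2, fun j => by have := hd j; dsimp only; omega⟩
  obtain rfl : d = fun j => e j + 2 := funext he
  obtain ⟨hd1, hd2⟩ := Pool.Agent.Y716.D.dims hs hn hdn
  obtain ⟨m, hm, h⟩ := Pool.Agent.Y716.D.wa_smooth_all (Fin (n + 1)) hs hd1 e hd2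
  refine ⟨m, hm, ?_⟩
  have hZ : ∀ (m : ℕ) (f : Fin s → MvPolynomial (Fin (n + 1)) ℤ),
      Pool.Agent.Y716.C.WeakApproxS m f ↔ ZeroCycleApproximation m f := by
    intro m f
    constructor
    · intro hf r P Q hP hQ
      have h1 := fun i : Fin r => hf (fun p _ => P p i) (Q i) (fun p _ => hP p i) (hQ i).1 (hQ i).2
      choose R hR0 hR1 hR2 hR3 using h1
      exact ⟨R, fun i => ⟨hR0 i, hR1 i⟩, fun p _ hp i => hR2 i p hp, fun i => hR3 i⟩
    · intro hf z y hz hy0 hy
      obtain ⟨R, hR0, hR1, hR2⟩ := hf 1 (fun p _ _ => z p) (fun _ => y) (fun p _ _ => hz p)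
        (fun _ => ⟨hy0, hy⟩)
      exact ⟨R 0, (hR0 0).1, (hR0 0).2, fun p _ hp => hR1 p hp 0, hR2 0⟩
  refine h.congr (fun H => ?_)
  simp only [hZ]
  rfl

end Pool.Agent.Results.MP_bd895b_nt.RandomZeroCycles
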