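import Pool.Agent.Y160.T7.Main
import Pool.Agent.Y160.T7.Ex
import Pool.Agent.Y179.T7.Smooth
import Pool.Agent.Y3.T7.Irr

/-!
# Zero-cycles and the Tate-Shafarevich group of the curves `w ^ q = f(x, t)` over `k(t)`, for the
# plane curves `f = 0` obtained from a line by changes of coordinates and `p`-th roots

Let `p` be a prime, `q` a power of `p`, and `k` a field of characteristic not `p` which contains the
`q`-th roots of unity; for instance a number field, a finite field, or any finitely generated field.
`IsTowerCurve p f` means that the polynomial `f(x, t)` over `k` is obtained from the polynomial `x` by
finitely many operations: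

* `f ↦ c f`, `c ≠ 0` a constant;
* `f ↦ f(t, x)` and `f ↦ f(c x + b(t), t)`, `c ≠ 0`, `b` any polynomial: so every (tame) automorphism of
the plane is allowed;
* `f ↦ f(x, t ^ p)`, if the line `t = 0` meets the curve `f = 0` transversally in ONE closed point of
degree prime to `p` (that is, `f(x, 0)` is irreducible and separable of degree prime to `p`).

Theorem. Let `f` be such a polynomial, monic in `x` of degree prime to `p`, and separable over `K = k(t)`
(which is automatic in characteristic zero). Let `J` be the Jacobian over `K` of the curve
`w ^ q = f(x, t)`. Then the Tate conjecture at `p` holds for the surface `w ^ q = f(x, t)`, the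
`p`-primary part of the Tate-Shafarevich group of `J` over `K` is zero, and `J(K) = p J(K)`: the rank of
the group `J(K)` is zero, if it is finitely generated.

Consequence. Let `k` be finite, so that `K = k(t)` is a global field. Then by the theorems of Artin, Tate
and Milne the whole Tate-Shafarevich group of `J` is finite, and so the local-global complex for
zero-cycles is exact for the smooth projective curve over `K` with the equation `w ^ q = f(x, t)`; these
curves have unbounded genus and unbounded conductor, and none of the classical reasons (constant curves,
curves dominated by products of curves) applies in general.

No condition is needed at the bad places, and once `f(x, 0)` is irreducible the theorem holds for all the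
polynomials `f(x, t ^ (p ^ d))` at once, so for surfaces of unbounded geometric genus. For instance
(`exF_mem` in `Pool.Agent.Y160.T7.Ex`) for all polynomials `P`, `Q` and all constants `e ≠ 0`, `c ≠ 0`
such that `e x + P(Q(x))` is irreducible of degree prime to `p` (by the criterion of Eisenstein, for
many of them), for

  `w ^ q = e x + P(c t ^ (p ^ d) + Q(x))`, all `d ≥ 0`,

with `P`, `Q` of arbitrary degrees, whereas the known cases (products of curves, quotients of them, and
the families of the author) are about special shapes, such as `P(y) = y ^ q`.

Method: the curve `f = 0` has the property that all the functions on it whose divisor is divisible by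
`p` are constants times `p`-th powers (there are no unramified cyclic coverings of degree `p` of the curve
besides those given by the extensions of the field `k`); this property is true for a line, and it is
inherited by the cyclic covering of degree `p` which is ramified in one closed point of degree
prime to `p` (as in genus theory, or in Iwasawa theory: only one place is ramified).
-/

set_option autoImplicit false

open Polynomial

namespace Pool.Agent.Results.MP_bd895b_nt.TowerCurves

open Pool.Agent.Y160.SL Pool.Agent.TH115.GD

theorem result {p s : ℕ} (hp : p.Prime) {k k' K F : Type} [Field k] [Field k'] [Algebra k k']
    [Field K] [Algebra k[X] K] [IsFractionRing k[X] K] [Field F] [Algebra k'[X] F]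
    [IsFractionRing k'[X] F] [Algebra K F] (hT : IsTower k k' K F) {ζ : k}
    (hζ : IsPrimitiveRoot ζ (p ^ (s + 1))) {f : k[X][X]} (hf : IsTowerCurve p f)
    (hmonic : f.Monic) (hcop : p.Coprime f.natDegree)
    (hsep : (f.map (algebraMap k[X] K)).Separable) :
    Concl p (p ^ (s + 1)) 0 k k' F (f.map (algebraMap k[X] K)) :=
  Pool.Agent.Y160.T7.main Pool.Agent.Y179.T7.st_smooth Pool.Agent.Y3.T7.st_irr hT hp hζ hf hmonic hcop hsep

end Pool.Agent.Results.MP_bd895b_nt.TowerCurves
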